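import Mathlib

/-!
A regular type A sequence is grown from `(1, 1)` by repeatedly putting in front the sum of an
initial block, or at the end the sum of a final block.  We show `a(60) = 8` and
`a(51, 60) = 10`, so the inequality `a(k₁, k₂) ≤ a(k₂) + 1` fails for `k₁ = 51`, `k₂ = 60`.
-/

namespace Pool.Agent.Results.MP_98b1c4_co.Disproof

/-- Regular type A sequences: `[1, 1]` is one; if `d` is one and `1 ≤ j ≤ d.length`, then so is
`d` with the sum of its first `j` terms put in front, and so is `d` with the sum of its last `j`
terms put at the end. -/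
inductive RegularA : List ℕ → Prop
  | start : RegularA [1, 1]
  | front (d : List ℕ) (j : ℕ) (hd : RegularA d) (h1 : 1 ≤ j) (hj : j ≤ d.length) :
      RegularA ((d.take j).sum :: d)
  | back (d : List ℕ) (j : ℕ) (hd : RegularA d) (h1 : 1 ≤ j) (hj : j ≤ d.length) :
      RegularA (d ++ [(d.drop (d.length - j)).sum])

/-- The set of all lengths `n` of regular type A sequences that contain some ordering of the
multiset listed by `ks` as a subsequence.  The number `a(ks)` is its least element. -/
def lengths (ks : List ℕ) : Set ℕ :=
  {n | ∃ d : List ℕ, RegularA d ∧ d.length = n ∧ ∃ e : List ℕ, e.Perm ks ∧ e.Sublist d}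

/-- All the sequences obtained from `d` by one step. -/
def succs (d : List ℕ) : List (List ℕ) :=
  ((List.range (d.length + 1)).map fun j => (d.take j).sum :: d) ++
  ((List.range (d.length + 1)).map fun j => d ++ [(d.drop (d.length - j)).sum])

/-- The least total considered at each length. -/
def thr : ℕ → ℕ
  | 0 => 2
  | 1 => 4
  | 2 => 7
  | 3 => 13
  | 4 => 26
  | _ => 51

/-- The candidates of length `n + 2` whose total is at least the threshold. -/
def gen : ℕ → List (List ℕ)
  | 0 => [[1, 1]]
  | (n + 1) => ((gen n).flatMap succs).filter fun d => decide (thr (n + 1) ≤ d.sum)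

lemma take_sum_le (d : List ℕ) (j : ℕ) : (d.take j).sum ≤ d.sum :=
  List.Sublist.sum_le_sum (List.take_sublist j d) (by simp)

lemma drop_sum_le (d : List ℕ) (j : ℕ) : (d.drop j).sum ≤ d.sum :=
  List.Sublist.sum_le_sum (List.drop_sublist j d) (by simp)

lemma RegularA.two_le_length {d : List ℕ} (h : RegularA d) : 2 ≤ d.length := by
  induction h with
  | start => simp
  | front d j hd h1 hj ih => simp; omega
  | back d j hd h1 hj ih => simp; omega

lemma RegularA.sum_le {d : List ℕ} (h : RegularA d) : 2 * d.sum ≤ 2 ^ d.length := by
  induction h with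
  | start => simp
  | front d j hd h1 hj ih =>
    have := take_sum_le d j
    simp only [List.sum_cons, List.length_cons, pow_succ]
    omega
  | back d j hd h1 hj ih =>
    have := drop_sum_le d (d.length - j)
    simp only [List.sum_append, List.sum_cons, List.sum_nil, List.length_append, List.length_cons,
      List.length_nil, pow_succ, zero_add]
    omega

/-- Every regular sequence either is the start or is a successor of a regular sequence. -/
lemma RegularA.pred {d : List ℕ} (h : RegularA d) :
    d = [1, 1] ∨ ∃ c j, RegularA c ∧ j ≤ c.length ∧ c.length + 1 = d.length ∧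
      d.sum ≤ 2 * c.sum ∧
      (d = (c.take j).sum :: c ∨ d = c ++ [(c.drop (c.length - j)).sum]) := by
  cases h with
  | start => left; rfl
  | front c j hd h1 hj =>
    right
    refine ⟨c, j, hd, hj, by simp, ?_, Or.inl rfl⟩
    have := take_sum_le c j
    simp only [List.sum_cons]
    omega
  | back c j hd h1 hj =>
    right
    refine ⟨c, j, hd, hj, by simp, ?_, Or.inr rfl⟩
    have := drop_sum_le c (c.length - j)
    simp only [List.sum_append, List.sum_cons, List.sum_nil]
    omega

lemma mem_succs {c d : List ℕ} {j : ℕ} (hj : j ≤ c.length)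
    (h : d = (c.take j).sum :: c ∨ d = c ++ [(c.drop (c.length - j)).sum]) : d ∈ succs c := by
  unfold succs
  rcases h with h | h
  · apply List.mem_append_left
    exact List.mem_map.2 ⟨j, List.mem_range.2 (by omega), h.symm⟩
  · apply List.mem_append_right
    exact List.mem_map.2 ⟨j, List.mem_range.2 (by omega), h.symm⟩

lemma mem_gen (n : ℕ) : n ≤ 5 → ∀ d : List ℕ, RegularA d → d.length = n + 2 → thr n ≤ d.sum →
    d ∈ gen n := by
  induction n with
  | zero =>
    intro _ d hd hl _
    rcases hd.pred with h | ⟨c, j, hc, hj, hcl, _, _⟩
    · simp [gen, h]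
    · have := hc.two_le_length
      omega
  | succ n ih =>
    intro hn d hd hl hs
    rcases hd.pred with h | ⟨c, j, hc, hj, hcl, hcs, h⟩
    · subst h
      simp at hl
    · have h1 : c ∈ gen n := by
        apply ih (by omega) c hc (by omega)
        -- the total at most doubles in a step
        rcases n with _ | _ | _ | _ | _ | n <;> simp only [thr] at hs ⊢ <;> omega
      simp only [gen, List.mem_filter, List.mem_flatMap, decide_eq_true_eq]
      exact ⟨⟨c, h1, mem_succs hj h⟩, hs⟩

/-- Kernel computation: no candidate of length `7` can be extended in two steps to a sequence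
containing both `51` and `60`. -/
lemma gen_check : ((gen 5).flatMap succs).all (fun d =>
    !(d.contains 51 || d.contains 60) ||
      (succs d).all (fun e => !(e.contains 51 && e.contains 60))) = true := by
  decide +kernel

lemma mem_le_sum {d : List ℕ} {x : ℕ} (h : x ∈ d) : x ≤ d.sum :=
  List.single_le_sum (by simp) x h

/-- Every term is at most the previous total, so terms are at most `2 ^ (length - 2)`. -/
lemma RegularA.four_mul_mem_le {d : List ℕ} (h : RegularA d) : ∀ x ∈ d, 4 * x ≤ 2 ^ d.length := by
  induction h with
  | start => simp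
  | front d j hd h1 hj ih =>
    intro x hx
    have h2 := take_sum_le d j
    have h3 := hd.sum_le
    simp only [List.mem_cons] at hx
    simp only [List.length_cons, pow_succ]
    rcases hx with rfl | hx
    · omega
    · have := ih x hx
      omega
  | back d j hd h1 hj ih =>
    intro x hx
    have h2 := drop_sum_le d (d.length - j)
    have h3 := hd.sum_le
    simp only [List.mem_append, List.mem_cons, List.not_mem_nil, or_false] at hx
    simp only [List.length_append, List.length_cons, List.length_nil, zero_add, pow_succ]
    rcases hx with hx | rfl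
    · have := ih x hx
      omega
    · omega

lemma no_short {d : List ℕ} (hd : RegularA d) (hl : d.length ≤ 9) (h51 : 51 ∈ d) (h60 : 60 ∈ d) :
    False := by
  rcases hd.pred with h | ⟨c, j, hc, hj, hcl, hcs, h⟩
  · subst h
    simp at h51
  · -- the predecessor `c` contains `51` or `60`
    have hc' : 51 ∈ c ∨ 60 ∈ c := by
      rcases h with h | h
      · rw [h] at h51 h60
        simp only [List.mem_cons] at h51 h60
        rcases h51 with h51 | h51
        · rcases h60 with h60 | h60
          · omega
          · exact Or.inr h60
        · exact Or.inl h51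
      · rw [h] at h51 h60
        simp only [List.mem_append, List.mem_cons, List.not_mem_nil, or_false] at h51 h60
        rcases h51 with h51 | h51
        · exact Or.inl h51
        · rcases h60 with h60 | h60
          · exact Or.inr h60
          · omega
    rcases hc.pred with h' | ⟨b, i, hb, hi, hbl, hbs, h'⟩
    · subst h'
      simp at hc'
    · -- the predecessor `b` of `c` has length exactly `7` and total at least `51`
      have hb4 := hb.four_mul_mem_le
      have hbsum := hb.sum_le
      have hb7 : b.length ≤ 7 := by omega
      have hpow : 2 ^ b.length ≤ 2 ^ 7 := Nat.pow_le_pow_right (by norm_num) hb7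
      have hnot51 : 51 ∉ b := fun hx => by have := hb4 _ hx; omega
      have hnot60 : 60 ∉ b := fun hx => by have := hb4 _ hx; omega
      have hb51 : 51 ≤ b.sum := by
        have h1 := take_sum_le b i
        have h2 := drop_sum_le b (b.length - i)
        rcases h' with h' | h'
        · rw [h'] at hc'
          simp only [List.mem_cons, hnot51, hnot60, or_false] at hc'
          omega
        · rw [h'] at hc'
          simp only [List.mem_append, List.mem_cons, List.not_mem_nil, or_false, hnot51, hnot60,
            false_or] at hc'
          omega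
      have hb7' : b.length = 7 := by
        by_contra hne
        have : b.length ≤ 6 := by omega
        have : 2 ^ b.length ≤ 2 ^ 6 := Nat.pow_le_pow_right (by norm_num) this
        omega
      have hmem : b ∈ gen 5 := mem_gen 5 le_rfl b hb hb7' hb51
      have hcm : c ∈ (gen 5).flatMap succs := List.mem_flatMap.2 ⟨b, hmem, mem_succs hi h'⟩
      have hcheck := (List.all_eq_true.1 gen_check) c hcm
      have hc'' : (c.contains 51 || c.contains 60) = true := by
        rcases hc' with h | h
        · simp [h]
        · simp [h]
      rw [hc''] at hcheck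
      simp only [Bool.not_true, Bool.false_or] at hcheck
      have hd' := (List.all_eq_true.1 hcheck) d (mem_succs hj h)
      simp [h51, h60] at hd'

/-- A regular sequence of length `10` containing `51` and `60`. -/
lemma exists_ten : RegularA [60, 30, 1, 1, 2, 4, 8, 14, 29, 51] := by
  have h0 : RegularA [1, 1] := RegularA.start
  have h1 : RegularA [1, 1, 2] := RegularA.back _ 2 h0 (by simp) (by simp)
  have h2 : RegularA [1, 1, 2, 4] := RegularA.back _ 3 h1 (by simp) (by simp)
  have h3 : RegularA [1, 1, 2, 4, 8] := RegularA.back _ 4 h2 (by simp) (by simp)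
  have h4 : RegularA [1, 1, 2, 4, 8, 14] := RegularA.back _ 3 h3 (by simp) (by simp)
  have h5 : RegularA [1, 1, 2, 4, 8, 14, 29] := RegularA.back _ 5 h4 (by simp) (by simp)
  have h6 : RegularA [1, 1, 2, 4, 8, 14, 29, 51] := RegularA.back _ 3 h5 (by simp) (by simp)
  have h7 : RegularA [30, 1, 1, 2, 4, 8, 14, 29, 51] := RegularA.front _ 6 h6 (by simp) (by simp)
  exact RegularA.front _ 7 h7 (by simp) (by simp)

/-- A regular sequence of length `8` containing `60`. -/
lemma exists_eight : RegularA [60, 30, 15, 7, 4, 2, 1, 1] := by
  have h0 : RegularA [1, 1] := RegularA.start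
  have h1 : RegularA [2, 1, 1] := RegularA.front _ 2 h0 (by simp) (by simp)
  have h2 : RegularA [4, 2, 1, 1] := RegularA.front _ 3 h1 (by simp) (by simp)
  have h3 : RegularA [7, 4, 2, 1, 1] := RegularA.front _ 3 h2 (by simp) (by simp)
  have h4 : RegularA [15, 7, 4, 2, 1, 1] := RegularA.front _ 5 h3 (by simp) (by simp)
  have h5 : RegularA [30, 15, 7, 4, 2, 1, 1] := RegularA.front _ 6 h4 (by simp) (by simp)
  exact RegularA.front _ 7 h5 (by simp) (by simp)

/-- `a(51, 60) = 10`. -/
lemma isLeast_pair : IsLeast (lengths [51, 60]) 10 := by
  constructor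
  · exact ⟨_, exists_ten, rfl, [60, 51], by decide, by decide⟩
  · rintro n ⟨d, hd, hl, e, he, hed⟩
    by_contra hn
    have h51 : 51 ∈ d := hed.subset (he.mem_iff.2 (by simp))
    have h60 : 60 ∈ d := hed.subset (he.mem_iff.2 (by simp))
    exact no_short hd (by omega) h51 h60

/-- `a(60) = 8`. -/
lemma isLeast_single : IsLeast (lengths [60]) 8 := by
  constructor
  · exact ⟨_, exists_eight, rfl, [60], by decide, by decide⟩
  · rintro n ⟨d, hd, hl, e, he, hed⟩
    by_contra hn
    have h60 : 60 ∈ d := hed.subset (he.mem_iff.2 (by simp))
    have h1 := hd.four_mul_mem_le 60 h60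
    have h2 : 2 ^ d.length ≤ 2 ^ 7 := Nat.pow_le_pow_right (by norm_num) (by omega)
    omega

/-- There are positive integers `k₁ ≤ k₂` for which the least length `m = a(k₁, k₂)` of a regular
type A sequence containing both satisfies `m ≥ a(k₂) + 2`. -/
theorem result : ∃ k₁ k₂ m n : ℕ, 0 < k₁ ∧ k₁ ≤ k₂ ∧
    IsLeast (lengths [k₁, k₂]) m ∧ IsLeast (lengths [k₂]) n ∧ n + 2 ≤ m :=
  ⟨51, 60, 10, 8, by norm_num, by norm_num, isLeast_pair, isLeast_single, le_rfl⟩

end Pool.Agent.Results.MP_98b1c4_co.Disproof
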